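import Mathlib
import Pool.Graph.R_seed8.TH766.KT.Forced
import Pool.Agent.H644.TP.Final

set_option autoImplicit false

open Cardinal Pool.Agent.Helper669.Forcing Pool.Agent.Helper669.K Pool.Agent.Helper980.G
  Pool.Agent.TH766.KT

namespace Pool.Agent.Results.MP_dc3585_lc.StrongFormIndependent

/-- The strong form (Q2) is independent of ZFC. Let `K` be a set with `|K| ^ (2 ^ ℵ₀) = |K|` and
`|K| > ℶ₈` (for example `|K| = ℶ₉`). There are two notions of forcing, each of which preserves
`ω₁` and forces the continuum hypothesis and `2 ^ ℵ₁ = |K|`, so that `|K| = 2 ^ (2 ^ ℵ₀)` in both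
extensions; if the continuum hypothesis holds in the ground model then all cardinals are
preserved. In the extension by the first one there is a partition of the triples of `K` into two
classes such that every uncountable subset of `K` has countably infinite homogeneous subsets of
both classes. In the extension by the second one there is no such partition: for every partition
of the triples of `K` into two classes there are an uncountable subset of `K` and a class such
that the subset has no countably infinite homogeneous subset of this class. -/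
theorem result (K : Type) (hK : #K ^ (𝔠 : Cardinal.{0}) = #K) (hK8 : ℶ_ 8 < #K) :
    (∃ (P : Type) (_ : Preorder P), Nonempty P ∧ ∀ p : P,
      p ∈ OmegaOnePreserved P ∧ p ∈ PowerEq P ℕ W1 ∧ p ∈ PowerEq P W1 K ∧
      ((𝔠 : Cardinal.{0}) = ℵ_ 1 → p ∈ CardinalsPreserved.{0, 0} P) ∧
      p ∈ StrongPartition P K) ∧
    (∃ (P : Type) (_ : Preorder P), Nonempty P ∧ ∀ p : P,
      p ∈ OmegaOnePreserved P ∧ p ∈ PowerEq P ℕ W1 ∧ p ∈ PowerEq P W1 K ∧
      ((𝔠 : Cardinal.{0}) = ℵ_ 1 → p ∈ CardinalsPreserved.{0, 0} P) ∧
      p ∈ fnot (StrongPartition P K)) :=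
  Pool.Agent.H644.TP.final K hK hK8

end Pool.Agent.Results.MP_dc3585_lc.StrongFormIndependent
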